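import Pool.Agent.Y802.VG.Tow
import Pool.Agent.Y802.TS.Gmain

/-! Representations of the Galois groups of the towers. -/

set_option autoImplicit false

open Matrix IsLocalRing Finset NumberField Topology IntermediateField Module
open Pool.Agent.TeamU Pool.Agent.H718R3 Pool.Agent.Y800 Pool.Agent.Y802.TS

namespace Pool.Agent.Y802.VG

attribute [local instance 10] DivisionRing.toRatAlgebra

/-- representations of open subgroups of the absolute Galois group which are trivial on the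
elements fixing the top of the tower -/
theorem vg_finite (hnil : S_NIL) (g : ℕ → GQ)
    (hg : ∀ U : Subgroup GQ, IsOpen (U : Set GQ) → ∀ (γ : GQ) (j0 : ℕ),
      ∃ j, j0 ≤ j ∧ γ⁻¹ * g j ∈ U)
    {k L : IntermediateField ℚ (AlgebraicClosure ℚ)} {T N : ℕ → ℕ} {x : ℕ → GQ}
    (htow : IsTower k L T) (hx1 : ∀ i, Fr (T i) (x i)) (hN : ∀ j, 1 ≤ N j)
    (hx2 : ∀ j, x j * (g j ^ N j)⁻¹ ∈ Hj j (N j))
    (Γ : Subgroup GQ) (hΓ : IsOpen (Γ : Set GQ)) (p : ℕ) (hp : p.Prime)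
    (A : Type) [CommRing A] [IsLocalRing A] [IsNoetherianRing A] [TopologicalSpace A]
    (hA : IsAdic (maximalIdeal A)) (hfin : Finite (ResidueField A)) (hpA : (p : A) ∈ maximalIdeal A)
    (n : ℕ) (ρ : Γ →* GL (Fin n) A) (hρ : Continuous ρ)
    (hL : ∀ γ : Γ, (∀ y ∈ L, (γ : GQ) y = y) → ρ γ = 1) : (Set.range ρ).Finite := by
  have hopen := Kj_open hA hΓ ρ hρ
  obtain ⟨S0, hS0⟩ := almost_unr Γ hΓ
  have hkfin : FiniteDimensional ℚ k := FiniteDimensional.of_finrank_pos (by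
    rw [htow.rank]; norm_num)
  obtain ⟨S1, hS1⟩ := almost_unr k.fixingSubgroup k.fixingSubgroup_isOpen
  have hS' : UnrOut ρ (S1 ∪ S0) := by
    intro q hq hqS P hP hqP τ hτ
    rw [Finset.mem_union, not_or] at hqS
    have h1 := hS0 q hq hqS.2 P hP hqP τ hτ
    refine ⟨h1, hL ⟨τ, h1⟩ ?_⟩
    refine htow.unr q hq P hP hqP τ ?_ hτ
    exact (IntermediateField.mem_fixingSubgroup_iff _ _).1 (hS1 q hq hqS.1 P hP hqP τ hτ)
  have hone : ∀ j, ∀ h : x j ∈ Γ, ρ ⟨x j, h⟩ = 1 := by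
    intro j h
    obtain ⟨P, hP, hTP, hxP⟩ := hx1 j
    exact hL ⟨x j, h⟩ (htow.split j P hP hTP (x j) hxP)
  obtain ⟨-, -, h3⟩ := unip_gen ρ Pool.Agent.Y487.TS.t_VAL hnil hΓ hp hpA hfin hopen _ hS' g hg
      N hN x hx2 0 (by
        intro j _ h
        refine ⟨1, one_ne_zero, 1, ?_⟩
        rw [hone j h, Units.val_one, one_pow, sub_self, pow_one])
  exact h3 ⟨0, fun j _ h => ⟨1, one_ne_zero, by rw [hone j h, one_pow]⟩⟩

section

variable {k : Type} [Field k] [NumberField k] (e : AlgebraicClosure k ≃ₐ[ℚ] AlgebraicClosure ℚ)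
  (L : IntermediateField k (AlgebraicClosure k)) [IsGalois k L]

theorem th_surj : Function.Surjective (th e L) := by
  intro u
  obtain ⟨σ, rfl⟩ := AlgEquiv.restrictNormalHom_surjective (F := k) (K₁ := L)
    (E := AlgebraicClosure k) u
  let g : GQ := e.symm.trans ((σ.restrictScalars ℚ).trans e)
  have hg : g ∈ Gk e := by
    intro a
    change e (σ (e.symm (e (algebraMap k _ a)))) = _
    rw [e.symm_apply_apply, AlgEquiv.commutes]
  refine ⟨⟨g, hg⟩, ?_⟩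
  have h1 : Ah e ⟨g, hg⟩ = σ := by
    ext y
    rw [Ah_apply]
    change e.symm (e (σ (e.symm (e y)))) = σ y
    rw [e.symm_apply_apply, e.symm_apply_apply]
  change (AlgEquiv.restrictNormalHom L) (Ah e ⟨g, hg⟩) = _
  rw [h1]

theorem th_eq_one (g : Gk e) (h : ∀ y ∈ img e L, g.1 y = y) : th e L g = 1 := by
  ext y
  rw [th_apply, h _ ((mem_img e).2 ⟨y, y.2, rfl⟩), e.symm_apply_apply]
  rfl

theorem th_cont : Continuous (th e L) := by
  apply continuous_of_continuousAt_one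
  rw [ContinuousAt, map_one]
  intro V hV
  obtain ⟨D, hD, hDV⟩ := NT.basis1 (k := k) (F := L) V hV
  obtain ⟨U, hU, hU'⟩ := th_open e L D hD.2
  rw [Filter.mem_map]
  refine Filter.mem_of_superset ((hU.preimage continuous_subtype_val).mem_nhds
    (show (1 : Gk e) ∈ _ from U.one_mem)) ?_
  rintro ⟨y, hy⟩ hyU
  obtain ⟨h1, h2⟩ := hU' y hyU
  exact hDV h2

theorem transfer (U : Subgroup (Gal(L/k))) (hU : IsOpen (U : Set (Gal(L/k))))
    {A : Type} [CommRing A] [TopologicalSpace A] {n : ℕ} (ρ : U →* GL (Fin n) A) (hρ : Continuous ρ)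
    (H : ∀ (Γ : Subgroup GQ), IsOpen (Γ : Set GQ) → ∀ ρ' : Γ →* GL (Fin n) A, Continuous ρ' →
      (∀ γ : Γ, (∀ y ∈ img e L, (γ : GQ) y = y) → ρ' γ = 1) → (Set.range ρ').Finite) :
    (Set.range ρ).Finite := by
  let Γ : Subgroup GQ := (U.comap (th e L)).map (Gk e).subtype
  have hmem : ∀ γ : GQ, γ ∈ Γ ↔ ∃ h : γ ∈ Gk e, th e L ⟨γ, h⟩ ∈ U := by
    intro γ
    constructor
    · rintro ⟨y, hy, rfl⟩
      exact ⟨y.2, hy⟩
    · rintro ⟨h, h1⟩
      exact ⟨⟨γ, h⟩, h1, rfl⟩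
  have hΓ : IsOpen (Γ : Set GQ) := by
    obtain ⟨U', hU', h1⟩ := th_open e L U hU
    refine Subgroup.isOpen_mono (H₁ := U') ?_ hU'
    intro y hy
    exact (hmem y).2 (h1 y hy)
  have hk : ∀ γ : Γ, (γ : GQ) ∈ Gk e := fun γ => ((hmem _).1 γ.2).choose
  have hu : ∀ γ : Γ, th e L ⟨γ, hk γ⟩ ∈ U := fun γ => ((hmem _).1 γ.2).choose_spec
  let r : Γ → U := fun γ => ⟨th e L ⟨γ, hk γ⟩, hu γ⟩
  have hr : Continuous r :=
    ((th_cont e L).comp (continuous_subtype_val.subtype_mk hk)).subtype_mk _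
  let r' : Γ →* U :=
    { toFun := r
      map_one' := by
        apply Subtype.ext
        change th e L ⟨1, _⟩ = 1
        exact map_one (th e L)
      map_mul' := by
        intro a b
        apply Subtype.ext
        change th e L ⟨a * b, _⟩ = th e L ⟨a, _⟩ * th e L ⟨b, _⟩
        rw [← map_mul]
        rfl }
  have h1 := H Γ hΓ (ρ.comp r') (hρ.comp hr) (by
    intro γ hγ
    have h2 : r' γ = 1 := by
      apply Subtype.ext
      exact th_eq_one e L ⟨γ, hk γ⟩ hγ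
    rw [MonoidHom.comp_apply, h2, map_one])
  refine h1.subset ?_
  rintro _ ⟨u, rfl⟩
  obtain ⟨y, hy⟩ := th_surj e L (u : Gal(L/k))
  have hyΓ : (y : GQ) ∈ Γ := (hmem _).2 ⟨y.2, by
    have : (⟨(y : GQ), y.2⟩ : Gk e) = y := rfl
    rw [this, hy]
    exact u.2⟩
  refine ⟨⟨y, hyΓ⟩, ?_⟩
  rw [MonoidHom.comp_apply]
  congr 1
  apply Subtype.ext
  change th e L ⟨(y : GQ), _⟩ = u
  rw [← hy]

end

theorem vg_main (hnil : S_NIL) (f : ℕ → ℕ) :
    ∃ (k : Type) (_ : Field k) (_ : NumberField k) (M : IntermediateField k (AlgebraicClosure k))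
      (L : Set ℕ → IntermediateField k (AlgebraicClosure k))
      (e : AlgebraicClosure k ≃ₐ[ℚ] AlgebraicClosure ℚ) (T : ℕ → ℕ),
      finrank ℚ k = 2 ∧ NT.Tow k M ∧ (∀ B, L B ≤ M ∧ IsGalois k (L B) ∧ Infinite (Gal(L B/k)) ∧
      Pro2 (Gal(L B/k)) ∧ (∀ U : Subgroup (Gal(L B/k)), IsOpen (U : Set (Gal(L B/k))) →
        Finite (Hm U) ∧ ¬ Module.Finite (ZMod 2) (H2f U)) ∧
        IsTower (img e ⊥) (img e (L B)) T) ∧ (∀ B B', L B' ≤ L B ↔ B ⊆ B') ∧
      (∀ i, (T i).Prime) ∧ (∀ i, f (T i) + T i < T (i + 1)) ∧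
      ∀ B, ∀ U : Subgroup (Gal(L B/k)), IsOpen (U : Set (Gal(L B/k))) →
        ∀ (p : ℕ), p.Prime → ∀ (A : Type) [CommRing A] [IsLocalRing A] [IsNoetherianRing A]
          [TopologicalSpace A], IsAdic (maximalIdeal A) → Finite (ResidueField A) →
          (p : A) ∈ maximalIdeal A →
        ∀ (n : ℕ) (ρ : U →* GL (Fin n) A), Continuous ρ → (Set.range ρ).Finite := by
  obtain ⟨g, hg⟩ := exists_dense
  obtain ⟨k, i1, i2, M, hM1, L, e, T, N, x, hk, hM, hL, hord, hT1, hT2, hx1, hN, hx2⟩ :=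
    exists_tower2 f g
  refine ⟨k, i1, i2, M, L, e, T, hk, hM, hL, hord, hT1, hT2, ?_⟩
  intro B U hU p hp A _ _ _ _ hA hfin hpA n ρ hρ
  have hgal : IsGalois k (L B) := (hL B).2.1
  refine transfer e (L B) U hU ρ hρ ?_
  intro Γ hΓ ρ' hρ' htriv
  exact vg_finite hnil g hg (hL B).2.2.2.2.2 hx1 hN hx2 Γ hΓ p hp A hA hfin hpA n ρ' hρ' htriv

end Pool.Agent.Y802.VG
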