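import Pool.Agent.H718R3.Main3

/-!
# Selection of deep independent elements beside a given deep sequence

Adapted from the files `Select` and `Infinite` of the starting repository (written by helper718).
-/

set_option autoImplicit false

namespace Pool.Agent.Y802.VG

open Module Topology Pool.Agent.H718R3

section comb

variable {G : Type*}

/-- the two sequences together -/
def comb (z y : ℕ → G) (i : ℕ) : G := if i % 2 = 0 then z (i / 2) else y (i / 2)

theorem comb_even (z y : ℕ → G) (j : ℕ) : comb z y (2 * j) = z j := by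
  unfold comb
  rw [if_pos (by omega)]
  congr 1
  omega

theorem comb_odd (z y : ℕ → G) (j : ℕ) : comb z y (2 * j + 1) = y j := by
  unfold comb
  rw [if_neg (by omega)]
  congr 1
  omega

theorem comb_deep [Group G] [TopologicalSpace G] (z y : ℕ → G)
    (hz : ∀ i, ∀ f ∈ W G (2 * i + 3), R (z i) f = f)
    (hy : ∀ i, ∀ f ∈ W G (2 * i + 4), R (y i) f = f) :
    ∀ i, ∀ f ∈ W G (i + 3), R (comb z y i) f = f := by
  intro i f hf
  unfold comb
  split_ifs with h
  · apply hz
    have h1 : 2 * (i / 2) + 3 = i + 3 := by omega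
    rw [h1]
    exact hf
  · apply hy
    have h1 : 2 * (i / 2) + 4 = i + 3 := by omega
    rw [h1]
    exact hf

end comb

variable {G : Type*} [Group G] [TopologicalSpace G] [IsTopologicalGroup G]

/-- The sequence of deep independent elements. -/
theorem exists_sequence2 (hB : Basis1 G) (hG : Pro2 G) (hfin : Module.Finite (ZMod 2) (Hm G))
    (hH : Module.Finite (ZMod 2) (H2f G)) (hd : 9 ≤ finrank (ZMod 2) (Hm G))
    (hr : finrank (ZMod 2) (H2f G) ≤ 17) (z : ℕ → G)
    (hz : ∀ i, ∀ f ∈ W G (2 * i + 3), R (z i) f = f) :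
    ∃ (x : ℕ → G) (T : ℕ → Subgroup G), (∀ i, ∀ f ∈ W G (2 * i + 4), R (x i) f = f) ∧
      (∀ i, Cen (x i) (T i)) ∧ (∀ i j, i ≠ j → x j ∈ T i) ∧ ∀ i j, z j ∈ T i := by
  classical
  obtain ⟨g, χ, hg, hχ, hχg⟩ := exists_sep hfin
  let D := G × Subgroup G
  let P : (n : ℕ) → (Fin n → D) → D → Prop := fun n s y =>
    (∀ f ∈ W G (2 * n + 4), R y.1 f = f) ∧ Cen y.1 y.2 ∧ (∀ j, y.1 ∈ (s j).2 ∧ (s j).1 ∈ y.2) ∧
      ∀ j, z j ∈ y.2
  have key : ∀ (n : ℕ) (s : ℕ → D), (∀ i, i < n → P i (fun j => s j) (s i)) →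
      ∃ y, P n (fun j => s j) y := by
    intro n s hs
    let x' : ℕ → G := comb z fun i => if i < n then (s i).1 else 1
    have hx' : ∀ i, ∀ f ∈ W G (i + 3), R (x' i) f = f := by
      apply comb_deep z _ hz
      intro i f hf
      by_cases hi : i < n
      · simp only [hi, if_true]
        exact (hs i hi).1 f hf
      · simp only [hi, if_false]
        exact R_one f
    have hinf := infinite_quotient hG hfin hH hd hr x' hx'
    obtain ⟨O, hO, hO'⟩ := exists_deep hG hg (2 * n + 4)
    let O' : Subgroup G := O ⊓ ⨅ j : Fin n, (s j).2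
    have hO'on : ON O' := hO.inf (ON_iInf _ fun j => (hs j j.2).2.1.on)
    have hnle : ¬ O' ≤ NC x' := by
      intro hle
      obtain ⟨k, hk⟩ := hG O' hO'on
      have h1 : (NC x').index ≠ 0 := by
        have h2 : O'.index ≠ 0 := by
          change Nat.card (G ⧸ O') ≠ 0
          rw [hk]; positivity
        exact fun h0 => h2 (by
          have := Subgroup.index_dvd_of_le hle
          rw [h0] at this
          exact Nat.eq_zero_of_zero_dvd this)
      have : Finite (G ⧸ NC x') := Nat.finite_of_card_ne_zero h1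
      exact not_finite (G ⧸ NC x')
    obtain ⟨y, hyO, hyN⟩ := SetLike.not_le_iff_exists.mp hnle
    obtain ⟨T₀, hT₀, hNT₀, hyT₀⟩ := exists_on_of_closed hB (NC_normal x')
      (Subgroup.isClosed_topologicalClosure _) hyN
    obtain ⟨T, hT0T, hT⟩ := exists_cen hG hT₀ hyT₀
    refine ⟨(y, T), fun f hf => hO' y hyO.1 f hf, hT, fun j => ⟨?_, ?_⟩, fun j => ?_⟩
    · exact Subgroup.mem_iInf.mp hyO.2 j
    · apply hT0T
      apply hNT₀
      have := mem_NC x' (2 * j + 1)
      simp only [x'] at this
      rw [comb_odd] at this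
      simp only [j.2, if_true] at this
      exact this
    · apply hT0T
      apply hNT₀
      have := mem_NC x' (2 * j)
      simp only [x'] at this
      rw [comb_even] at this
      exact this
  obtain ⟨f, hf⟩ := exists_seq P key
  refine ⟨fun n => (f n).1, fun n => (f n).2, fun i => (hf i).1, fun i => (hf i).2.1, ?_,
    fun i j => (hf i).2.2.2 j⟩
  intro i j hij
  rcases lt_or_gt_of_ne hij with h | h
  · exact ((hf j).2.2.1 ⟨i, h⟩).1
  · exact ((hf i).2.2.1 ⟨j, h⟩).2


theorem NC_le_MM' {w : ℕ → G} {x : G} {T : Subgroup G} (hC : Cen x T)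
    (hw : ∀ j, w j ∈ MM x T) {n : G} (hn : n ∈ NC w) : n ∈ MM x T := by
  have hTn := hC.on.1
  let M : Subgroup G :=
    { carrier := MM x T
      one_mem' := Or.inl T.one_mem
      mul_mem' := by
        rintro a b (ha | ha) (hb | hb)
        · exact Or.inl (T.mul_mem ha hb)
        · right
          have h1 := hTn.conj_mem _ ha x⁻¹
          have e : x⁻¹ * (a * b) = (x⁻¹ * a * x⁻¹⁻¹) * (x⁻¹ * b) := by group
          rw [e]
          exact T.mul_mem h1 hb
        · right
          rw [← mul_assoc]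
          exact T.mul_mem ha hb
        · left
          -- `a = x a'`, `b = x b'`
          have h1 := hTn.conj_mem _ hb x⁻¹
          have h2 := hTn.conj_mem _ ha x
          have e : a * b = (x * (x⁻¹ * a) * x⁻¹) * (x * x) * (x⁻¹ * b) := by
            group
          rw [e]
          exact T.mul_mem (T.mul_mem h2 hC.sq) hb
      inv_mem' := by
        rintro a (ha | ha)
        · exact Or.inl (T.inv_mem ha)
        · right
          have h1 := T.inv_mem ha
          have h2 := T.inv_mem hC.sq
          have h3 := hTn.conj_mem _ h1 x⁻¹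
          have e : x⁻¹ * a⁻¹ = (x⁻¹ * (x⁻¹ * a)⁻¹ * x⁻¹⁻¹) * (x * x)⁻¹ := by
            group
          rw [e]
          exact T.mul_mem h3 h2 }
  have hTM : T ≤ M := fun t ht => Or.inl ht
  have hMn : M.Normal := by
    refine ⟨fun m hm y => ?_⟩
    have := MM_conj hC hm y⁻¹
    rw [inv_inv] at this
    exact this
  have hMo : IsOpen (M : Set G) := Subgroup.isOpen_mono hTM hC.on.2
  have hMc : IsClosed (M : Set G) := Subgroup.isClosed_of_isOpen M hMo
  have h1 : Subgroup.normalClosure (Set.range w) ≤ M := by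
    apply Subgroup.normalClosure_le_normal
    rintro _ ⟨j, rfl⟩
    exact hw j
  exact Subgroup.topologicalClosure_minimal _ h1 hMc hn


/-- The quotient by the closed normal subgroup generated by independent elements has infinite
`H²` on each of its open subgroups. -/
theorem infinite_H2' (hB : Basis1 G) (hG : Pro2 G) (hfin : Module.Finite (ZMod 2) (Hm G))
    {x : ℕ → G} {T : ℕ → Subgroup G} (hC : ∀ i, Cen (x i) (T i))
    (hxT : ∀ i j, i ≠ j → x j ∈ T i) {Q : Type*} [Group Q] [TopologicalSpace Q]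
    (π : G →* Q) (hπ : Continuous π) (hπo : IsOpenMap π) (hsurj : Function.Surjective π)
    (hMM : ∀ i, ∀ n ∈ π.ker, n ∈ MM (x i) (T i)) (hxk : ∀ i, x i ∈ π.ker) (U : Subgroup Q) (hU : IsOpen (U : Set Q)) :
    ¬ Module.Finite (ZMod 2) (H2f U) := by
  classical
  intro hfinite
  obtain ⟨g, χ, hg, -, -⟩ := exists_sep hfin
  choose φ hφ hφx using fun i => exists_phi (hC i)
  choose σ hσ using hsurj
  -- descent
  let cQ : ℕ → Q → Q → ZMod 2 := fun i a b => dphi (φ i) (σ a) (σ b)
  have hcQ : ∀ i (a b : G), cQ i (π a) (π b) = dphi (φ i) a b := by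
    intro i a b
    have ha : σ (π a) = a * (a⁻¹ * σ (π a)) := by group
    have hb : σ (π b) = b * (b⁻¹ * σ (π b)) := by group
    have ha' : a⁻¹ * σ (π a) ∈ π.ker := by
      rw [MonoidHom.mem_ker, map_mul, hσ, map_inv, inv_mul_cancel]
    have hb' : b⁻¹ * σ (π b) ∈ π.ker := by
      rw [MonoidHom.mem_ker, map_mul, hσ, map_inv, inv_mul_cancel]
    change dphi (φ i) (σ (π a)) (σ (π b)) = _
    rw [ha, hb]
    exact dphi_inv (hC i) (hφ i) (hφx i) (hMM i _ ha') (hMM i _ hb') a b
  have hcmem : ∀ i, (fun a b : U => cQ i a b) ∈ Z2f U := by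
    intro i
    refine ⟨⟨((T i).map π).subgroupOf U, ⟨?_, ?_⟩, ?_⟩, ?_⟩
    · have : ((T i).map π).Normal := (hC i).on.1.map π (fun q => ⟨σ q, hσ q⟩)
      infer_instance
    · have h1 : IsOpen (((T i).map π : Subgroup Q) : Set Q) := by
        rw [Subgroup.coe_map]
        exact hπo _ (hC i).on.2
      exact h1.preimage continuous_subtype_val
    · rintro a b v ⟨t, ht, htv⟩ w ⟨t', ht', htw⟩
      have hv : (v : Q) = π t := htv.symm
      have hw : (w : Q) = π t' := htw.symm
      have ha : (a : Q) = π (σ a) := (hσ _).symm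
      have hb : (b : Q) = π (σ b) := (hσ _).symm
      change cQ i ((a : Q) * v) ((b : Q) * w) = cQ i a b
      rw [hv, hw, ha, hb, ← map_mul, ← map_mul, hcQ, hcQ]
      exact dphi_inv (hC i) (hφ i) (hφx i) (Or.inl ht) (Or.inl ht') _ _
    · intro a b c
      have ha : (a : Q) = π (σ a) := (hσ _).symm
      have hb : (b : Q) = π (σ b) := (hσ _).symm
      have hc : (c : Q) = π (σ c) := (hσ _).symm
      change cQ i a b + cQ i (a * b : Q) c = cQ i b c + cQ i a (b * c : Q)
      rw [ha, hb, hc, ← map_mul, ← map_mul, hcQ, hcQ, hcQ, hcQ]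
      exact dphi_cocycle _ _ _ _
  let Λ : (ℕ →₀ ZMod 2) →ₗ[ZMod 2] H2f U :=
    Finsupp.linearCombination (ZMod 2) (fun i => Submodule.Quotient.mk ⟨_, hcmem i⟩)
  -- elements of the kernel
  have hkerΛ : ∀ ε ∈ LinearMap.ker Λ, ∃ u ∈ LC U, ∀ a b : U,
      (ε.sum fun i e => e * cQ i a b) = u a + u b - u (a * b) := by
    intro ε hε
    rw [LinearMap.mem_ker] at hε
    have h1 : Λ ε = Submodule.Quotient.mk (ε.sum fun i e => e • (⟨_, hcmem i⟩ : Z2f U)) := by
      rw [← Submodule.mkQ_apply, map_finsuppSum]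
      simp only [map_smul, Submodule.mkQ_apply]
      rfl
    rw [h1, Submodule.Quotient.mk_eq_zero] at hε
    obtain ⟨u, hu, hu'⟩ := hε
    refine ⟨u, hu, fun a b => ?_⟩
    rw [← hu' a b]
    simp only [Finsupp.sum, Submodule.subtype_apply, Submodule.coe_sum, Submodule.coe_smul,
      Finset.sum_apply, Pi.smul_apply, smul_eq_mul]
  choose u hu hu' using hkerΛ
  -- the open subgroup upstairs
  let Ũ : Subgroup G := U.comap π
  have hŨ : IsOpen (Ũ : Set G) := hU.preimage hπ
  have hfinU : Finite (Hm Ũ) := finite_Hm_open hB hG hg Ũ hŨ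
  let πU : Ũ →* U := (π.comp Ũ.subtype).codRestrict U (fun a => a.2)
  have hπU : Continuous πU := (hπ.comp continuous_subtype_val).subtype_mk _
  let ψ : LinearMap.ker Λ → (Ũ → ZMod 2) := fun ε a =>
    (ε.1.sum fun i e => e * φ i a) - u ε.1 ε.2 (πU a)
  have hψ : ∀ ε, ψ ε ∈ Hm Ũ := by
    intro ε
    refine ⟨?_, ?_⟩
    · have h1 : (fun a : Ũ => ε.1.sum fun i e => e * φ i a) =
          ∑ i ∈ ε.1.support, ε.1 i • (fun a : Ũ => φ i a) := by
        funext a
        simp [Finsupp.sum]
      have h2 : (fun a : Ũ => ε.1.sum fun i e => e * φ i a) ∈ LC Ũ := by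
        rw [h1]
        refine sum_mem fun i _ => Submodule.smul_mem _ _ ?_
        exact LC_comp Ũ.subtype continuous_subtype_val ⟨T i, (hC i).on, hφ i⟩
      exact sub_mem h2 (LC_comp πU hπU (hu ε.1 ε.2))
    · intro a b
      have h1 := hu' ε.1 ε.2 (πU a) (πU b)
      have h2 : ∀ i, cQ i (πU a) (πU b) = φ i a + φ i b - φ i (a * b : G) := fun i =>
        hcQ i a b
      simp only [h2] at h1
      simp only [ψ]
      rw [map_mul πU]
      have h3 : (ε.1.sum fun i e => e * (φ i a + φ i b - φ i (a * b : G))) =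
          (ε.1.sum fun i e => e * φ i a) + (ε.1.sum fun i e => e * φ i b) -
            (ε.1.sum fun i e => e * φ i (a * b : G)) := by
        simp only [Finsupp.sum]
        rw [← Finset.sum_add_distrib, ← Finset.sum_sub_distrib]
        exact Finset.sum_congr rfl fun i _ => by ring
      rw [h3] at h1
      change (ε.1.sum fun i e => e * φ i (a * b : G)) - _ = _
      linear_combination -h1
  have hψx : ∀ (ε : LinearMap.ker Λ) (j : ℕ) (hj : x j ∈ Ũ), ψ ε ⟨x j, hj⟩ = ε.1 j := by
    intro ε j hj
    have h0 := Hm_one (hψ ε)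
    have hxj : πU ⟨x j, hj⟩ = 1 := by
      apply Subtype.ext
      change π (x j) = 1
      exact MonoidHom.mem_ker.1 (hxk j)
    simp only [ψ] at h0 ⊢
    rw [map_one] at h0
    rw [hxj]
    have h1 : ∀ i, φ i (x j) = φ i 1 + if i = j then 1 else 0 := by
      intro i
      split_ifs with hij
      · subst hij
        have := hφx i 1
        rwa [one_mul] at this
      · have := hφ i 1 (x j) (hxT i j hij)
        rw [one_mul] at this
        rw [this, add_zero]
    have h2 : (ε.1.sum fun i e => e * φ i (x j)) =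
        (ε.1.sum fun i e => e * φ i ((1 : Ũ) : G)) + ε.1 j := by
      simp only [h1, Finsupp.sum, mul_add, Finset.sum_add_distrib, OneMemClass.coe_one]
      congr 1
      simp only [mul_ite, mul_one, mul_zero, Finset.sum_ite_eq', Finsupp.mem_support_iff]
      split_ifs with h
      · rfl
      · push Not at h
        exact h.symm
    change (ε.1.sum fun i e => e * φ i (x j)) - _ = _
    rw [h2]
    linear_combination h0
  have hinj : Function.Injective (fun ε : LinearMap.ker Λ => (⟨ψ ε, hψ ε⟩ : Hm Ũ)) := by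
    intro ε ε' h
    apply Subtype.ext
    ext j
    have hj : x j ∈ Ũ := by
      change π (x j) ∈ U
      have : π (x j) = 1 := by
        exact MonoidHom.mem_ker.1 (hxk j)
      rw [this]
      exact U.one_mem
    rw [← hψx ε j hj, ← hψx ε' j hj]
    exact congrFun (congrArg Subtype.val h) _
  have hkerfin : Finite (LinearMap.ker Λ) := Finite.of_injective _ hinj
  have hH2fin : Finite (H2f U) := Module.finite_of_finite (ZMod 2)
  have hrfin : Finite (LinearMap.range Λ) := inferInstance
  have hqfin : Finite ((ℕ →₀ ZMod 2) ⧸ LinearMap.ker Λ) :=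
    Finite.of_equiv _ Λ.quotKerEquivRange.symm.toEquiv
  have hall : Finite (ℕ →₀ ZMod 2) := by
    have h1 : Module.Finite (ZMod 2) (LinearMap.ker Λ) := inferInstance
    have h2 : Module.Finite (ZMod 2) ((ℕ →₀ ZMod 2) ⧸ LinearMap.ker Λ) := inferInstance
    have h3 : Module.Finite (ZMod 2) (ℕ →₀ ZMod 2) :=
      Module.Finite.of_submodule_quotient (LinearMap.ker Λ)
    exact Module.finite_of_finite (ZMod 2)
  exact not_finite (ℕ →₀ ZMod 2)


end Pool.Agent.Y802.VG
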