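import Pool.Agent.Y802.TS.Tower
import Pool.Agent.Y802.VG.Alg

/-! The tower, with infinite relation rank for all open subgroups. -/

set_option autoImplicit false

open Module NumberField IsDedekindDomain IntermediateField Topology
open Pool.Agent.TeamU Pool.Agent.H718R3 Pool.Agent.Y800 Pool.Agent.Y802.TS

namespace Pool.Agent.Y802.VG

attribute [local instance 10] DivisionRing.toRatAlgebra

theorem exists_tower2 (f : ℕ → ℕ) (g : ℕ → GQ) :
    ∃ (k : Type) (_ : Field k) (_ : NumberField k) (M : IntermediateField k (AlgebraicClosure k))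
      (_ : IsGalois k M) (L : Set ℕ → IntermediateField k (AlgebraicClosure k))
      (e : AlgebraicClosure k ≃ₐ[ℚ] AlgebraicClosure ℚ) (T : ℕ → ℕ) (N : ℕ → ℕ) (x : ℕ → GQ),
      finrank ℚ k = 2 ∧ NT.Tow k M ∧ (∀ B, L B ≤ M ∧ IsGalois k (L B) ∧ Infinite (Gal(L B/k)) ∧
      Pro2 (Gal(L B/k)) ∧ (∀ U : Subgroup (Gal(L B/k)), IsOpen (U : Set (Gal(L B/k))) →
        Finite (Hm U) ∧ ¬ Module.Finite (ZMod 2) (H2f U)) ∧
        IsTower (img e ⊥) (img e (L B)) T) ∧ (∀ B B', L B' ≤ L B ↔ B ⊆ B') ∧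
      (∀ i, (T i).Prime) ∧ (∀ i, f (T i) + T i < T (i + 1)) ∧
      (∀ i, Fr (T i) (x i)) ∧ (∀ j, 1 ≤ N j) ∧ ∀ j, x j * (g j ^ N j)⁻¹ ∈ Hj j (N j) := by
  obtain ⟨k, i1, i2, hk, hreal, h2, s, hs⟩ := NT.exists_base
  obtain ⟨M, hM, hq⟩ := NT.exists_tow k hreal h2 s hs
  obtain ⟨e⟩ := exists_equiv k
  have hgal : IsGalois k M := hM.normal
  have hB : Basis1 (Gal(M/k)) := NT.basis1
  have hG : Pro2 (Gal(M/k)) := hM.pro2
  have hfin := hM.finite_Hm
  have hd := hM.nine_le hk s hs hq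
  obtain ⟨hH, hr⟩ := hM.H2_le hk 17 (NT.index_le hk s hs)
  obtain ⟨g0, χ0, hg0, -, -⟩ := exists_sep hfin
  choose D hD hD' using fun n => exists_deep hG hg0 n
  choose U0 hU0 hU0' using fun n => th_open e M (D n) (hD n).2
  -- the nontrivial coset
  let K0 : IntermediateField ℚ (AlgebraicClosure ℚ) := img e ⊥
  have hK0 : Gk e = K0.fixingSubgroup := by
    ext σ
    rw [mem_Gk_iff, IntermediateField.mem_fixingSubgroup_iff]
  have hr0 : finrank ℚ K0 = 2 := (finrank_img_bot e).trans hk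
  have hfd0 : FiniteDimensional ℚ K0 := FiniteDimensional.of_finrank_pos (by rw [hr0]; norm_num)
  have hGkopen : IsOpen (Gk e : Set GQ) := by
    rw [hK0]
    exact K0.fixingSubgroup_isOpen
  have hidx : (Gk e).index = 2 := by
    rw [hK0, ← IntermediateField.finrank_eq_fixingSubgroup_index, hr0]
  obtain ⟨a, ha⟩ := Subgroup.index_eq_two_iff.1 hidx
  obtain ⟨S0, hS0⟩ := almost_unr (Gk e) hGkopen
  -- the open normal subgroups
  let V : ℕ → Subgroup GQ := fun j => (U0 (4 * j + 8)).normalCore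
  have hVo : ∀ j, IsOpen (V j : Set GQ) := fun j => core_open (hU0 _)
  have hVn : ∀ j, (V j).Normal := fun j => Subgroup.normalCore_normal _
  let N : ℕ → ℕ := fun j => (V j).index
  have hN : ∀ j, 1 ≤ N j := by
    intro j
    have hq : Finite (GQ ⧸ V j) := Subgroup.quotient_finite_of_isOpen _ (hVo j)
    have : 0 < Nat.card (GQ ⧸ V j) := Nat.card_pos
    exact this
  let U : ℕ → Subgroup GQ := fun j => V j ⊓ Hj j (N j)
  have hUo : ∀ j, IsOpen (U j : Set GQ) := fun j => (hVo j).inter (Hj_open j (N j))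
  have hUn : ∀ j, (U j).Normal := by
    intro j
    have := hVn j
    have := Hj_normal j (N j)
    exact Subgroup.normal_inf_normal _ _
  obtain ⟨T, x, hT1, hT2, hT3, hT4, hT5⟩ := choose_primes f S0 g N U hUo hUn
  have hxV : ∀ j, x j ∈ V j := by
    intro j
    have := hVn j
    have h3 : g j ^ N j ∈ V j := Subgroup.pow_index_mem (V j) (g j)
    have h4 := (V j).mul_mem (hT5 j).1 h3
    rwa [inv_mul_cancel_right] at h4
  have hxV' : ∀ (b : GQ) j, ∃ h : b * x j * b⁻¹ ∈ Gk e, th e M ⟨_, h⟩ ∈ D (4 * j + 8) := by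
    intro b j
    exact hU0' _ _ (Subgroup.normalCore_le _ ((hVn j).conj_mem _ (hxV j) b))
  choose hc hcD using hxV'
  let z : ℕ → Gal(M/k) := fun i =>
    if i % 2 = 0 then th e M ⟨_, hc 1 (i / 2)⟩ else th e M ⟨_, hc a⁻¹ (i / 2)⟩
  have hz : ∀ i, ∀ φ ∈ W (Gal(M/k)) (2 * i + 3), R (z i) φ = φ := by
    intro i φ hφ
    have h3 : φ ∈ W (Gal(M/k)) (4 * (i / 2) + 8) := W_mono (by omega) hφ
    apply hD' (4 * (i / 2) + 8) _ _ φ h3
    simp only [z]
    split_ifs
    · exact hcD _ _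
    · exact hcD _ _
  obtain ⟨y, T', hy, hC, hyT, hzT⟩ := exists_sequence2 hB hG hfin hH hd hr z hz
  classical
  let yB : Set ℕ → ℕ → Gal(M/k) := fun B => comb (fun i => y (2 * i)) fun i => if i ∈ B then y (2 * i + 1) else 1
  have hyB : ∀ B, ∀ i, ∀ f ∈ W (Gal(M/k)) (2 * i + 4), R (yB B i) f = f := by
    intro B i f hf
    rcases Nat.even_or_odd' i with ⟨c, rfl | rfl⟩
    · simp only [yB]
      rw [comb_even]
      exact hy _ f hf
    · simp only [yB]
      rw [comb_odd]
      split_ifs with h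
      · exact hy _ f hf
      · exact R_one f
  let ww : Set ℕ → ℕ → Gal(M/k) := fun B => comb z (yB B)
  have hcases : ∀ B j, (∃ i, ww B j = z i) ∨ (∃ i, ww B j = y (2 * i)) ∨
      (∃ i ∈ B, ww B j = y (2 * i + 1)) ∨ ww B j = 1 := by
    intro B j
    rcases Nat.even_or_odd' j with ⟨c, rfl | rfl⟩
    · left
      exact ⟨c, comb_even _ _ _⟩
    · right
      have h3 : ww B (2 * c + 1) = yB B c := comb_odd _ _ _
      rw [h3]
      rcases Nat.even_or_odd' c with ⟨d, rfl | rfl⟩
      · left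
        exact ⟨d, comb_even _ _ _⟩
      · right
        have h4 : yB B (2 * d + 1) = if d ∈ B then y (2 * d + 1) else 1 := comb_odd _ _ _
        rw [h4]
        by_cases hd : d ∈ B
        · left
          exact ⟨d, hd, by rw [if_pos hd]⟩
        · right
          rw [if_neg hd]
  have hyev : ∀ B i, y (2 * i) ∈ NC (ww B) := by
    intro B i
    have h3 := mem_NC (ww B) (2 * (2 * i) + 1)
    have h4 : ww B (2 * (2 * i) + 1) = y (2 * i) := by
      have h5 : ww B (2 * (2 * i) + 1) = yB B (2 * i) := comb_odd _ _ _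
      rw [h5]
      exact comb_even _ _ _
    rwa [h4] at h3
  have hyodd : ∀ B, ∀ i ∈ B, y (2 * i + 1) ∈ NC (ww B) := by
    intro B i hi
    have h3 := mem_NC (ww B) (2 * (2 * i + 1) + 1)
    have h4 : ww B (2 * (2 * i + 1) + 1) = y (2 * i + 1) := by
      have h5 : ww B (2 * (2 * i + 1) + 1) = yB B (2 * i + 1) := comb_odd _ _ _
      rw [h5]
      have h6 : yB B (2 * i + 1) = if i ∈ B then y (2 * i + 1) else 1 := comb_odd _ _ _
      rw [h6, if_pos hi]
    rwa [h4] at h3
  have hfixB : ∀ B, (fixedField (NC (ww B)) : IntermediateField k M).fixingSubgroup = NC (ww B) :=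
    fun B => NT.fix_fixed (NC (ww B)) (Subgroup.isClosed_topologicalClosure _)
  have horder : ∀ B B', lift (fixedField (NC (ww B')) : IntermediateField k M) ≤
      lift (fixedField (NC (ww B))) ↔ B ⊆ B' := by
    intro B B'
    have h3 : lift (fixedField (NC (ww B')) : IntermediateField k M) ≤
      lift (fixedField (NC (ww B))) ↔ NC (ww B) ≤ NC (ww B') := by
      constructor
      · intro h
        have h4 : (fixedField (NC (ww B')) : IntermediateField k M) ≤ fixedField (NC (ww B)) := by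
          intro v hv
          exact (mem_lift v).1 (h ((mem_lift v).2 hv))
        have h5 := IntermediateField.fixingSubgroup_antitone h4
        rwa [hfixB, hfixB] at h5
      · rintro h v ⟨v', hv', rfl⟩
        refine ⟨v', ?_, rfl⟩
        exact fun m => hv' ⟨m.1, h m.2⟩
    rw [h3]
    constructor
    · intro h b hb
      by_contra hb'
      have h4 : NC (ww B') ≤ T' (2 * b + 1) := by
        refine Subgroup.topologicalClosure_minimal _ ?_
          (Subgroup.isClosed_of_isOpen _ (hC (2 * b + 1)).on.2)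
        have hn : (T' (2 * b + 1)).Normal := (hC (2 * b + 1)).on.1
        apply Subgroup.normalClosure_le_normal
        rintro _ ⟨j, rfl⟩
        rcases hcases B' j with ⟨i, hi⟩ | ⟨i, hi⟩ | ⟨i, hi', hi⟩ | hi
        · rw [SetLike.mem_coe, hi]; exact hzT _ i
        · rw [SetLike.mem_coe, hi]; exact hyT _ _ (by omega)
        · rw [SetLike.mem_coe, hi]
          apply hyT
          intro h5
          have : b = i := by omega
          subst this
          exact hb' hi'
        · rw [SetLike.mem_coe, hi]; exact Subgroup.one_mem _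
      exact (hC (2 * b + 1)).notMem (h4 (h (hyodd B b hb)))
    · intro h
      refine Subgroup.topologicalClosure_minimal _ ?_ (Subgroup.isClosed_topologicalClosure _)
      have hn : (NC (ww B')).Normal := NC_normal _
      apply Subgroup.normalClosure_le_normal
      rintro _ ⟨j, rfl⟩
      rcases hcases B j with ⟨i, hi⟩ | ⟨i, hi⟩ | ⟨i, hi', hi⟩ | hi
      · rw [SetLike.mem_coe, hi]
        have h4 := mem_NC (ww B') (2 * i)
        have h5 : ww B' (2 * i) = z i := comb_even _ _ _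
        rwa [h5] at h4
      · rw [SetLike.mem_coe, hi]; exact hyev B' i
      · rw [SetLike.mem_coe, hi]; exact hyodd B' i (h hi')
      · rw [SetLike.mem_coe, hi]; exact Subgroup.one_mem _
  refine ⟨k, i1, i2, M, hgal, fun B => lift (fixedField (NC (ww B))), e, T, N, x, hk, hM, ?_, horder,
    hT1, hT3, hT4, hN, fun j => (hT5 j).2⟩
  intro B
  let w : ℕ → Gal(M/k) := ww B
  have hw : ∀ i, ∀ f ∈ W (Gal(M/k)) (i + 3), R (w i) f = f := comb_deep z (yB B) hz (hyB B)
  have hinf := infinite_quotient hG hfin hH hd hr w hw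
  have hNn : (NC w).Normal := NC_normal w
  have hNc : IsClosed (NC w : Set (Gal(M/k))) := Subgroup.isClosed_topologicalClosure _
  let Lf : IntermediateField k M := fixedField (NC w)
  have hfix : Lf.fixingSubgroup = NC w := NT.fix_fixed (NC w) hNc
  have hMMw : ∀ i, ∀ n ∈ NC w, n ∈ MM (y (2 * i)) (T' (2 * i)) := by
    intro i n hn
    refine NC_le_MM' (hC (2 * i)) (fun j => ?_) hn
    have hgen : ∀ c, y c ∈ MM (y (2 * i)) (T' (2 * i)) := by
      intro c
      by_cases hic : 2 * i = c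
      · subst hic
        right
        rw [inv_mul_cancel]
        exact (T' (2 * i)).one_mem
      · exact Or.inl (hyT (2 * i) c hic)
    rcases hcases B j with ⟨c, hc'⟩ | ⟨c, hc'⟩ | ⟨c, _, hc'⟩ | hc'
    · change ww B j ∈ _
      rw [hc']
      exact Or.inl (hzT (2 * i) c)
    · change ww B j ∈ _
      rw [hc']
      exact hgen _
    · change ww B j ∈ _
      rw [hc']
      exact hgen _
    · change ww B j ∈ _
      rw [hc']
      exact Or.inl (Subgroup.one_mem _)
  have hyw : ∀ i, y (2 * i) ∈ NC w := hyev B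
  have hzw : ∀ i, z i ∈ NC w := by
    intro i
    have h3 := mem_NC w (2 * i)
    have h4 : w (2 * i) = z i := comb_even _ _ _
    rwa [h4] at h3
  have hLf : IsGalois k Lf := inferInstance
  have hLfn : Normal k Lf := hLf.to_normal
  let L : IntermediateField ℚ (AlgebraicClosure ℚ) := img e (lift Lf)
  -- the group fixing `L`
  let F : Subgroup GQ := L.fixingSubgroup
  have hFmem : ∀ σ : Gk e, th e M σ ∈ NC w → σ.1 ∈ F := by
    intro σ hσ
    rw [IntermediateField.mem_fixingSubgroup_iff]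
    intro y hy
    exact fix_img e M Lf σ (by rw [hfix]; exact hσ) hy
  have hz0 : ∀ j, th e M ⟨_, hc 1 j⟩ ∈ NC w := by
    intro j
    have h3 := hzw (2 * j)
    simp only [z] at h3
    rw [if_pos (by omega)] at h3
    have h4 : 2 * j / 2 = j := by omega
    rwa [h4] at h3
  have hz1 : ∀ j, th e M ⟨_, hc a⁻¹ j⟩ ∈ NC w := by
    intro j
    have h3 := hzw (2 * j + 1)
    simp only [z] at h3
    rw [if_neg (by omega)] at h3
    have h4 : (2 * j + 1) / 2 = j := by omega
    rwa [h4] at h3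
  have hconjF : ∀ (b : GQ) (j : ℕ), b * x j * b⁻¹ ∈ F := by
    intro b j
    have hgen : ∀ (b' c : GQ) (h : b' ∈ Gk e) (hcc : c * x j * c⁻¹ ∈ Gk e),
        th e M ⟨_, hcc⟩ ∈ NC w → b' * (c * x j * c⁻¹) * b'⁻¹ ∈ F := by
      intro b' c h hcc h3
      apply hFmem ⟨b' * (c * x j * c⁻¹) * b'⁻¹, (Gk e).mul_mem ((Gk e).mul_mem h hcc)
        ((Gk e).inv_mem h)⟩
      have h4 : (⟨b' * (c * x j * c⁻¹) * b'⁻¹, (Gk e).mul_mem ((Gk e).mul_mem h hcc)
        ((Gk e).inv_mem h)⟩ : Gk e) = ⟨b', h⟩ * ⟨_, hcc⟩ * (⟨b', h⟩ : Gk e)⁻¹ := rfl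
      rw [h4, map_mul, map_mul, map_inv]
      exact hNn.conj_mem _ h3 _
    by_cases hb : b ∈ Gk e
    · have h3 := hgen b 1 hb (hc 1 j) (hz0 j)
      have h4 : b * (1 * x j * 1⁻¹) * b⁻¹ = b * x j * b⁻¹ := by group
      rwa [h4] at h3
    · have h5 : b * a ∈ Gk e := by
        rcases ha b with h | h
        · exact h.1
        · exact absurd h.1 hb
      have h3 := hgen (b * a) a⁻¹ h5 (hc a⁻¹ j) (hz1 j)
      have h4 : b * a * (a⁻¹ * x j * (a⁻¹)⁻¹) * (b * a)⁻¹ = b * x j * b⁻¹ := by group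
      rwa [h4] at h3
  have hin : ∀ q : ℕ, q.Prime → ∀ P : Ideal ZBar, P.IsMaximal → (q : ZBar) ∈ P → ∀ τ : GQ,
      τ ∈ Gk e → InInertia P τ → τ ∈ F := by
    intro q hq P hP hqP τ hτ hτP
    rw [IntermediateField.mem_fixingSubgroup_iff]
    intro y hy
    exact inertia_img e M hM ⟨τ, hτ⟩ q hq P hP hqP hτP Lf hy
  have hGkK : ∀ σ : GQ, (∀ x ∈ K0, σ x = x) → σ ∈ Gk e := by
    intro σ hσ
    rw [mem_Gk_iff]
    exact hσ
  have hinT : ∀ i, ∀ P : Ideal ZBar, P.IsMaximal → (T i : ZBar) ∈ P → ∀ τ : GQ,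
      InInertia P τ → τ ∈ F := by
    intro i P hP hTP τ hτ
    exact hin (T i) (hT1 i) P hP hTP τ (hS0 (T i) (hT1 i) (hT2 i) P hP hTP τ hτ) hτ
  -- the quotient
  have hLfg : IsGalois k Lf := inferInstance
  let eL : Lf ≃ₐ[k] lift Lf := liftAlgEquiv Lf
  have hLg : IsGalois k (lift Lf) := IsGalois.of_algEquiv eL
  let jj : lift Lf →ₐ[k] M := Lf.val.comp (eL.symm : lift Lf →ₐ[k] Lf)
  let π : Gal(M/k) →* Gal((lift Lf)/k) :=
    (AlgEquiv.autCongr eL : Gal(Lf/k) →* Gal((lift Lf)/k)).comp (AlgEquiv.restrictNormalHom Lf)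
  have hcompat : ∀ (g : Gal(M/k)) (y : lift Lf), jj (π g y) = g (jj y) := by
    intro g y
    have h1 := AlgEquiv.restrictNormal_commutes g Lf (eL.symm y)
    change Lf.val (eL.symm (eL ((AlgEquiv.restrictNormalHom Lf g) (eL.symm y)))) = _
    rw [AlgEquiv.symm_apply_apply]
    exact h1
  have hπ : Continuous π := NT.continuous_of_compat jj π hcompat
  have hsu : Function.Surjective π :=
    (AlgEquiv.autCongr eL).surjective.comp (AlgEquiv.restrictNormalHom_surjective M)
  have hker : π.ker = NC w := by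
    have h1 : (AlgEquiv.restrictNormalHom Lf : Gal(M/k) →* Gal(Lf/k)).ker = NC w := by
      rw [restrictNormalHom_ker]
      exact NT.fix_fixed (NC w) hNc
    rw [← h1]
    ext g
    rw [MonoidHom.mem_ker, MonoidHom.mem_ker]
    change (AlgEquiv.autCongr eL) (AlgEquiv.restrictNormalHom Lf g) = 1 ↔ _
    rw [EmbeddingLike.map_eq_one_iff]
  have hT2s : T2Space (Gal((lift Lf)/k)) := krullTopology_t2
  have hπo : IsOpenMap π := NT.isOpenMap_of_surj π hπ hsu
  refine ⟨lift_le Lf, hLg, ?_, hG.map π hπ hsu, ?_, ?_⟩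
  · have h1 : (Gal(M/k) ⧸ π.ker) ≃ Gal((lift Lf)/k) :=
      (QuotientGroup.quotientKerEquivOfSurjective π hsu).toEquiv
    rw [hker] at h1
    exact Infinite.of_injective h1 h1.injective
  · intro U hU
    refine ⟨?_, infinite_H2' (x := fun i => y (2 * i)) (T := fun i => T' (2 * i)) hB hG hfin
      (fun i => hC (2 * i)) (fun i j hij => hyT _ _ (by omega)) π hπ hπo hsu (fun i n hn => hMMw i n (by
      rw [← hker]; exact hn)) (fun i => by rw [hker]; exact hyw i) U hU⟩
    have hfinQ := finite_Hm_map hfin π hπ hsu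
    obtain ⟨g', χ', hg', -, -⟩ := exists_sep hfinQ
    exact finite_Hm_open NT.basis1 (hG.map π hπ hsu) hg' U hU
  refine ⟨hr0, ?_, ?_, ?_, ?_, ?_, ?_, ?_, ?_, ?_⟩
  · refine ⟨e (algebraMap k _ s), (mem_img_bot e).2 ⟨s, rfl⟩, ?_⟩
    rw [← map_pow, ← map_pow, hs, map_natCast, map_natCast]
    congr 1
  · exact img_mono e bot_le
  · apply not_finite_img e (lift Lf)
    intro hfd
    have hfd2 : FiniteDimensional k Lf := Module.Finite.equiv (liftAlgEquiv Lf).symm.toLinearEquiv
    have ho : IsOpen (NC w : Set (Gal(M/k))) := by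
      rw [← hfix]
      exact Lf.fixingSubgroup_isOpen
    have : Finite (Gal(M/k) ⧸ NC w) := Subgroup.quotient_finite_of_isOpen _ ho
    exact not_finite (Gal(M/k) ⧸ NC w)
  · intro σ hσ y hy
    exact normal_img e M Lf ⟨σ, hGkK σ hσ⟩ hy
  · intro q hq P hP hqP τ hτ hτP y hy
    exact (IntermediateField.mem_fixingSubgroup_iff L τ).1 (hin q hq P hP hqP τ (hGkK τ hτ) hτP) y hy
  · intro φ y
    exact real_img e M hM Lf φ y
  · intro y hy
    exact degree_img e M hM hk Lf hy
  · intro i P hP hTP σ hσ y hy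
    have h3 := split_of (hT1 i) (hT4 i) F (fun b => hconjF b i) (hinT i) P hP hTP σ hσ
    exact (IntermediateField.mem_fixingSubgroup_iff L σ).1 h3 y hy
  · intro i P hP hTP τ hτ y hy
    exact (IntermediateField.mem_fixingSubgroup_iff L τ).1 (hinT i P hP hTP τ hτ) y hy

end Pool.Agent.Y802.VG
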